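import Pool.Agent.Lib.MP_b525bf_ag_GM.INI
import Pool.Agent.Lib.MP_b525bf_ag_EL.MAINL
import Pool.Agent.Lib.MP_b525bf_ag_E.Final

/-!
# Global machine: assembly
-/

set_option autoImplicit false

namespace Pool.Agent.MP_b525bf_ag_GM

open AlgebraicGeometry CategoryTheory
open Pool.Agent.LU2 Pool.Agent.MP_b525bf_ag Pool.Agent.MP_b525bf_ag_E Pool.Agent.MP_b525bf_ag_EL

/-- There is a list of stable ideals, containing the members of `𝒯`, and a finite set of exponent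
vectors, such that at every invariant valuation ring there is an adapted smooth algebra. -/
def Adapted {k K : Type} [Field k] [Field K] [Algebra k K] (G : Subgroup (K ≃ₐ[k] K))
    (A : Subalgebra k K) (𝒯 : Set (Submodule A K)) : Prop :=
  ∃ (N : ℕ) (I : Fin N → Submodule A K) (D : Set (Fin N → ℤ)), IdList G A I ∧ D.Finite ∧
    (∀ T ∈ 𝒯, ∃ j, I j = T) ∧
    ∀ W : ValuationSubring K, Inv G A W →
      ∃ (n : ℕ) (x : Fin n → K) (B : Subalgebra k K) (y : Fin N → K), AdaptI A W B x I y D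

variable (k : Type) {A : Type} [Field k] [CommRing A] [IsDomain A] [Algebra k A]

/-- The equivariant resolution. -/
theorem exists_ideal_of_adapted [PerfectField k] [Infinite k] [Algebra.FiniteType k A]
    (G : Subgroup (A ≃ₐ[k] A)) (hG : ∀ H : Subgroup G, H.FiniteIndex → H = ⊤)
    (had : Adapted (liftG G) (rangeA k A) ∅) :
    HasResolution k A ∧ ∃ I : Ideal A, I ≠ ⊥ ∧ (∀ g ∈ G, ∀ a ∈ I, g a ∈ I) ∧
      ∀ b ∈ I, b ≠ 0 → Algebra.FormallySmooth k (chart I b) := by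
  have hhyp := hyp_liftG G hG
  obtain ⟨N, I, D, hI, hD, -, hW⟩ := had
  obtain ⟨m', M, a, e, hM, h0, hst, -⟩ := exists_stkI hhyp hI hD hW
  obtain ⟨M', hM', h0', hst'⟩ := destack_stab M a hM hst
  have h00 : ∀ z : FractionRing A, z ∈ M'.s 0 ↔ ∃ x : A, algebraMap A (FractionRing A) x = z := by
    intro z
    rw [h0', h0]
    exact Iff.rfl
  refine ⟨hasResolution_of_goodC_one k A (FractionRing A)
    (IsFractionRing.injective A (FractionRing A)) M' hM' h00, ?_⟩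
  obtain ⟨I, hI, hsm, d, hd⟩ := exists_ideal_of_goodC M' hM' h00
  refine ⟨I, hI, fun g hg a ha => ?_, hsm⟩
  rw [hd] at ha ⊢
  have h1 := hst' (IsFractionRing.fieldEquivOfAlgEquivHom k (FractionRing A) g)
    ⟨g, hg, rfl⟩ d _ ha
  rwa [IsFractionRing.fieldEquivOfAlgEquivHom_apply,
    IsFractionRing.fieldEquivOfAlgEquiv_algebraMap] at h1

/-- The equivariant resolution, with the projective case. -/
theorem group_actions_of_adapted [PerfectField k] [Infinite k] [Algebra.FiniteType k A]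
    (G : Subgroup (A ≃ₐ[k] A)) (hG : ∀ H : Subgroup G, H.FiniteIndex → H = ⊤)
    (had : Adapted (liftG G) (rangeA k A) ∅) :
    MPb525bf.HasResolution (Spec.map (CommRingCat.ofHom (algebraMap k A))) ∧
      (∃ I : Ideal A, I ≠ ⊥ ∧ (∀ g ∈ G, ∀ a ∈ I, g a ∈ I) ∧
        ∀ b ∈ I, b ≠ 0 → Algebra.Smooth k (chart I b)) ∧
      ∀ (𝒜 : ℕ → Submodule k A) [GradedAlgebra 𝒜], Algebra.adjoin k (𝒜 1 : Set A) = ⊤ →
        𝒜 1 ≠ ⊥ → (∀ t : kˣ, ∃ g ∈ G, ∀ (d : ℕ), ∀ a ∈ 𝒜 d, g a = (t : k) ^ d • a) →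
        MPb525bf.HasResolution (projTo 𝒜) := by
  obtain ⟨h1, I, hI, hst, hsm⟩ := exists_ideal_of_adapted k G hG had
  refine ⟨h1, ⟨I, hI, hst, fun b hb hb0 => ?_⟩, ?_⟩
  · have h4 := hsm b hb hb0
    have h5 := finiteType_chart (k := k) I b
    exact { formallySmooth := h4
            finitePresentation := Algebra.FinitePresentation.of_finiteType.mp h5 }
  · intro 𝒜 _ hgen hne hT
    refine hasResolution_proj 𝒜 hgen hne hI (isHomogeneous_of_torus 𝒜 I fun t => ?_) hsm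
    obtain ⟨g, hg, hgd⟩ := hT t
    exact ⟨g, hst g hg, hgd⟩

/-- The equivariant log resolution. -/
theorem log_ideal_of_adapted [PerfectField k] [Infinite k] [Algebra.FiniteType k A]
    (G : Subgroup (A ≃ₐ[k] A)) (hG : ∀ H : Subgroup G, H.FiniteIndex → H = ⊤) (E J : Ideal A)
    (had : Adapted (liftG G) (rangeA k A) {idT k E, idT k J}) :
    ∃ I : Ideal A, I ≠ ⊥ ∧ (∀ g ∈ G, ∀ a ∈ I, g a ∈ I) ∧
      ∀ V : ValuationSubring (FractionRing A), (∀ a : A, algebraMap A (FractionRing A) a ∈ V) →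
        MP_b525bf_ag_EL.IsLogDesing V E (J * I) := by
  have hhyp := hyp_liftG G hG
  obtain ⟨N, I, D, hI, hD, hT, hW⟩ := had
  obtain ⟨m', M, a, e, hM, h0, hstab, hlog⟩ := exists_stkI hhyp hI hD hW
  obtain ⟨ι', _, _, _, σ', _, M', θ', e', hE⟩ := exists_end M a hM hstab hlog
  have h00 : ∀ z : FractionRing A, z ∈ M'.s 0 ↔ ∃ x : A, algebraMap A (FractionRing A) x = z := by
    intro z
    rw [hE.zero, h0]
    exact Iff.rfl
  obtain ⟨I', d, hI'⟩ := exists_isIdl M' θ' hE.good h00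
  refine ⟨I', hI'.ne, fun g hg a ha => ?_, fun V hV => ?_⟩
  · have h1 : a ∈ I' ^ 1 := by rwa [pow_one]
    rw [hI'.pow] at h1
    have h2 := hE.stab (IsFractionRing.fieldEquivOfAlgEquivHom k (FractionRing A) g)
      ⟨g, hg, rfl⟩ _ _ h1
    rw [IsFractionRing.fieldEquivOfAlgEquivHom_apply,
      IsFractionRing.fieldEquivOfAlgEquiv_algebraMap, ← hI'.pow, pow_one] at h2
    exact h2
  · obtain ⟨j₁, hj₁⟩ := hT (idT k E) (Or.inl rfl)
    obtain ⟨j₂, hj₂⟩ := hT (idT k J) (Or.inr rfl)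
    refine isLogDesing_of_end hE.good hE.log h00 hI' E J ⟨j₁, ?_⟩ ⟨j₂, ?_⟩ V hV
    · beta_reduce
      rw [hj₁]
      rfl
    · beta_reduce
      rw [hj₂]
      rfl

end Pool.Agent.MP_b525bf_ag_GM
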