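import Pool.Agent.Lib.MP_b525bf_ag_GM.SGN

/-!
# Global machine, row CH1: units of least value, and the comparison with the chart
-/

set_option autoImplicit false
set_option linter.unusedVariables false

namespace Pool.Agent.MP_b525bf_ag_GM

open Pool.Agent.LU2 Pool.Agent.MP_b525bf_ag Pool.Agent.MP_b525bf_ag_W Pool.Agent.MP_b525bf_ag_E

variable {k K : Type} [Field k] [Field K] [Algebra k K] {A : Subalgebra k K}

variable {n : ℕ} {x : Fin n → K} {N m : ℕ} {I : Fin N → Submodule A K} {y : Fin N → K}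
  {u : Fin m → Fin N → ℕ} {θ : Fin m → ℕ} {D : Set (Fin N → ℤ)}
  {Q : Ideal (EFI A I u).alg} [Q.IsPrime] {B : Subalgebra k K}

private theorem CH1_mon_single (f : Fin N → K) (j : Fin N) :
    mon f (Pi.single j 1) = f j := by
  unfold mon
  rw [Finset.prod_eq_single j]
  · rw [Pi.single_eq_same, zpow_one]
  · intro i _ hi
    rw [Pi.single_eq_of_ne hi, zpow_zero]
  · intro h
    exact absurd (Finset.mem_univ j) h

private theorem CH1_mon_dv (f : Fin N → K) (hf0 : ∀ j, f j ≠ 0) (p q : Fin N) :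
    mon f (dv p q) = f p / f q := by
  have h1 : mon f (dv p q) = mon f (Pi.single p 1) / mon f (Pi.single q 1) := by
    unfold mon dv
    rw [← Finset.prod_div_distrib]
    refine Finset.prod_congr rfl fun i _ => ?_
    rw [Pi.sub_apply, zpow_sub₀ (hf0 i)]
  rw [h1, CH1_mon_single, CH1_mon_single]

/-- The elements of least value are units of degree `dF m j`. -/
theorem SemiDI.isU_y (hQ : SemiDI A I u D Q) {W : ValuationSubring K}
    (hW : Dom W (zeroSub (atP (EFI A I u) Q))) (hyI : ∀ j, y j ∈ I j) (hy0 : ∀ j, y j ≠ 0)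
    (hl : ∀ j, ∀ z ∈ I j, W.valuation z ≤ W.valuation (y j)) (j : Fin N) :
    IsU (atP (EFI A I u) Q) (dF m j) (y j) := by
  have hmem : ∀ z ∈ I j, z ∈ (EFI A I u).s (dF m j) := by
    intro z hz
    refine Fam.mem_ofSub.2 (Algebra.subset_adjoin ?_)
    exact Or.inl (Or.inl (Or.inr ⟨j, z, hz, rfl⟩))
  obtain ⟨z, hz, hzU⟩ := hQ.unF j
  have h1 : y j * z⁻¹ ∈ zeroSub (atP (EFI A I u) Q) := by
    have := (atP (EFI A I u) Q).mul' (le_atP _ Q _ (hmem _ (hyI j))) hzU.2.2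
    rwa [add_neg_cancel] at this
  have h2 : W.valuation (y j * z⁻¹) = 1 := by
    refine le_antisymm ((W.valuation_le_one_iff _).2 (hW.le _ h1)) ?_
    rw [map_mul, map_inv₀, ← div_eq_mul_inv]
    exact (one_le_div₀ (zero_lt_iff.2 ((Valuation.ne_zero_iff _).2 hzU.1))).2 (hl j z hz)
  have h3 : (y j * z⁻¹)⁻¹ ∈ zeroSub (atP (EFI A I u) Q) := hW.inv _ h1 h2
  have h4 : IsU (atP (EFI A I u) Q) 0 (y j * z⁻¹) :=
    ⟨mul_ne_zero (hy0 j) (inv_ne_zero hzU.1), h1, by rw [neg_zero]; exact h3⟩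
  have h5 := h4.mul hzU
  rw [zero_add, inv_mul_cancel_right₀ hzU.1] at h5
  exact h5

theorem SemiDI.le_zero (hQ : SemiDI A I u D Q) {W : ValuationSubring K}
    (hW : Dom W (zeroSub (atP (EFI A I u) Q))) (had : AdaptI A W B x I y D) :
    B ≤ zeroSub (atP (EFI A I u) Q) := by
  have hU := hQ.isU_y hW had.yI had.y0 had.least
  have hf0 := had.y0
  obtain ⟨F, hFW, hFf, hfr⟩ := had.frac
  have hFz : Algebra.adjoin k (F : Set K) ≤ zeroSub (atP (EFI A I u) Q) := by
    refine Algebra.adjoin_le ?_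
    intro c hc
    obtain ⟨p, q, hcq, hD⟩ := hFf c (Finset.mem_coe.1 hc)
    have h1 : W.valuation (mon y (dv p q)) ≤ 1 := by
      rw [CH1_mon_dv y hf0, ← hcq]
      exact (W.valuation_le_one_iff _).2 (hFW c hc)
    have h2 : mon y (dv p q) ∈ (atP (EFI A I u) Q).s 0 :=
      hQ.mem_zero hf0 hU fun i hi => hQ.pr_nonneg hf0 hU hW hD h1 i hi
    rw [CH1_mon_dv y hf0, ← hcq] at h2
    exact h2
  intro c hc
  obtain ⟨a, ha, b, hb, hb0, hbW, rfl⟩ := hfr c hc
  rw [div_eq_mul_inv]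
  exact Subalgebra.mul_mem _ (hFz ha) (hW.inv b (hFz hb) hbW)

end Pool.Agent.MP_b525bf_ag_GM
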