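import Pool.Agent.Lib.MP_b525bf_ag_E.Defs

/-!
# The global machine for lists of stable ideals: definitions
-/

set_option autoImplicit false

namespace Pool.Agent.MP_b525bf_ag_GM

open Pool.Agent.LU2 Pool.Agent.MP_b525bf_ag Pool.Agent.MP_b525bf_ag_E

variable {k K : Type} [Field k] [Field K] [Algebra k K]

section Fam

variable {N m : ℕ}

/-- A list of nonzero `G`-stable ideals of `A`. -/
structure IdList (G : Subgroup (K ≃ₐ[k] K)) (A : Subalgebra k K) (I : Fin N → Submodule A K) :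
    Prop where
  le : ∀ j, ∀ a ∈ I j, a ∈ A
  ne : ∀ j, I j ≠ ⊥
  stab : ∀ j, ∀ g ∈ G, ∀ a ∈ I j, g a ∈ I j

/-- The generators of the multigraded algebra. -/
def egensI (A : Subalgebra k K) (I : Fin N → Submodule A K)
    (u : Fin m → Fin N → ℕ) : Set (AddMonoidAlgebra K (Ix N m)) :=
  {F | ∃ a ∈ A, F = AddMonoidAlgebra.single 0 a} ∪
  {F | ∃ j, ∃ y ∈ I j, F = AddMonoidAlgebra.single (dF m j) y} ∪
  {F | ∃ j, F = AddMonoidAlgebra.single (dS u j) 1} ∪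
  {F | ∃ i, F = AddMonoidAlgebra.single (dR N i) 1}

/-- The multigraded family. -/
noncomputable def EFI (A : Subalgebra k K) (I : Fin N → Submodule A K)
    (u : Fin m → Fin N → ℕ) : Fam k K (Ix N m) :=
  Fam.ofSub (Algebra.adjoin k (egensI A I u))

open MP_b525bf_ag_W in
/-- The facts on a semistable prime `Q`; the rays whose section is not a unit are in `Q`. -/
structure SemiDI (A : Subalgebra k K) (I : Fin N → Submodule A K)
    (u : Fin m → Fin N → ℕ) (D : Set (Fin N → ℤ)) (Q : Ideal (EFI A I u).alg) [Q.IsPrime] :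
    Prop where
  unF : ∀ j, ∃ y ∈ I j, IsU (atP (EFI A I u) Q) (dF m j) y
  unS : ∀ j, IsU (atP (EFI A I u) Q) (dS u j) 1
  ind : LinearIndependent ℚ fun i : {i // ¬ IsU (atP (EFI A I u) Q) (dR N i) 1} =>
    fun j => (u i.1 j : ℚ)
  sign : ∀ d ∈ D, (∀ i, ¬ IsU (atP (EFI A I u) Q) (dR N i) 1 → 0 ≤ pr (u i) d) ∨
    ∀ i, ¬ IsU (atP (EFI A I u) Q) (dR N i) 1 → pr (u i) d ≤ 0

/-- The smooth algebra `B`, with parameters `x`, is adapted at `W` to the ideals `I j`, to the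
elements `y j ∈ I j` of least value and to the finite set `D` of exponent vectors. -/
structure AdaptI (A : Subalgebra k K) (W : ValuationSubring K) (B : Subalgebra k K) {n : ℕ}
    (x : Fin n → K) (I : Fin N → Submodule A K) (y : Fin N → K) (D : Set (Fin N → ℤ)) :
    Prop where
  fg : B.FG
  mem : ∀ b ∈ B, b ∈ W
  le : A ≤ B
  ne : ∀ l, x l ≠ 0
  sm : SmOver B x
  yI : ∀ j, y j ∈ I j
  y0 : ∀ j, y j ≠ 0
  least : ∀ j, ∀ z ∈ I j, W.valuation z ≤ W.valuation (y j)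
  par : ∃ P Q : Fin n → Fin N, (∀ l, x l = y (P l) / y (Q l)) ∧
    (∀ l, dv (P l) (Q l) ∈ D) ∧
    ∀ j, ∃ S : Finset (Fin n → ℕ),
      (∀ z ∈ I j, ∃ c : (Fin n → ℕ) → K, (∀ α ∈ S, c α ∈ B) ∧
        z = ∑ α ∈ S, c α * mon x (zx α)) ∧
      (∀ α ∈ S, W.valuation (mon x (zx α)) ≤ W.valuation (y j)) ∧
      ∀ α ∈ S, ev P Q (zx α) - Pi.single j 1 ∈ D
  frac : ∃ F : Finset K, (∀ c ∈ F, c ∈ W) ∧
    (∀ c ∈ F, ∃ p q : Fin N, c = y p / y q ∧ dv p q ∈ D) ∧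
    ∀ c ∈ B, ∃ a ∈ Algebra.adjoin k (F : Set K), ∃ b ∈ Algebra.adjoin k (F : Set K),
      b ≠ 0 ∧ W.valuation b = 1 ∧ c = a / b

end Fam

end Pool.Agent.MP_b525bf_ag_GM
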