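import Pool.Agent.Lib.MP_b525bf_ag_EL.Defs
import Pool.Agent.Lib.MP_b525bf_ag_GM.SEM

/-!
# Global machine, row MON: the ideals `I j` are monomial at the semistable points
-/

set_option autoImplicit false
set_option linter.unusedVariables false

namespace Pool.Agent.MP_b525bf_ag_GM

open Pool.Agent.LU2 Pool.Agent.MP_b525bf_ag Pool.Agent.MP_b525bf_ag_W Pool.Agent.MP_b525bf_ag_E
  Pool.Agent.MP_b525bf_ag_EL

variable {k K : Type} [Field k] [Field K] [Algebra k K] {A : Subalgebra k K} {N m : ℕ}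
  {I : Fin N → Submodule A K} {u : Fin m → Fin N → ℕ} {θ : Fin m → ℕ} {D : Set (Fin N → ℤ)}

private theorem mon_mem {d : Ix N m} {x : K}
    (hx : (AddMonoidAlgebra.single d x : AddMonoidAlgebra K (Ix N m)) ∈ egensI A I u) :
    x ∈ (EFI A I u).s d := Algebra.subset_adjoin hx

private theorem mon_memF (j : Fin N) {y : K} (hy : y ∈ I j) :
    y ∈ (EFI A I u).s (dF m j) := mon_mem (Or.inl (Or.inl (Or.inr ⟨j, y, hy, rfl⟩)))

private theorem mon_memS (j : Fin N) : (1 : K) ∈ (EFI A I u).s (dS u j) :=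
  mon_mem (Or.inl (Or.inr ⟨j, rfl⟩))

private theorem mon_uniP {ι : Type} [AddCommGroup ι] {M : Fam k K ι} (P : GP M) (Q : Ideal M.alg)
    [Q.IsPrime] (hQ : ∀ (a : ι) (x : K) (hx : x ∈ M.s a), M.el hx ∈ Q ↔ x ∈ P.I a) (d : ι)
    (z : K) (hz : IsU (atP M Q) d z) : UniP P d z := by
  obtain ⟨c, f, hf, hfq, hy⟩ := hz.2.1
  refine ⟨c, f, hf, fun h => hfq ((hQ c f hf).2 h), hy, fun h => ?_⟩
  have h1 : IsU (atP M Q) (c + d) (f * z) := ((isU_atP_iff M Q hf).2 hfq).mul hz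
  exact (isU_atP_iff M Q hy).1 h1 ((hQ _ _ hy).2 h)

theorem monAt_EFI (hC : Comb D u θ) (j : Fin N) :
    MonAt (EFI A I u) (amp N θ) (fun i : Fin m => dR N i) (I j : Set K) := by
  classical
  intro P hP
  obtain ⟨Q, hQp, hQ⟩ := P.exists_ideal
  have hsemi : SemiS (EFI A I u) (amp N θ) Q := by
    obtain ⟨n, hn, x, hx, hx'⟩ := hP
    exact ⟨n, hn, x, hx, fun h => hx' ((hQ _ _ hx).1 h)⟩
  have hS := semiDI hC Q hsemi
  -- the degree
  have hdeg : dF m j + dS u j = -∑ i, u i j • dR N i := by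
    apply Prod.ext
    · rw [Prod.fst_add, Prod.fst_neg, Prod.fst_sum]
      simp [dF, dS, dR]
    · rw [Prod.snd_add, Prod.snd_neg, Prod.snd_sum]
      funext i
      simp only [dF, dS, dR, Prod.smul_snd, Pi.add_apply, Pi.neg_apply, Finset.sum_apply,
        Pi.smul_apply, Pi.zero_apply]
      rw [Finset.sum_eq_single i]
      · simp
      · intro b _ hb
        simp [Ne.symm hb]
      · intro hh
        exact absurd (Finset.mem_univ i) hh
  refine ⟨fun i => u i j, fun a ha => ?_, ?_⟩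
  · have h1 := (EFI A I u).mul' (mon_memF j ha) (mon_memS j)
    rw [mul_one, hdeg] at h1
    obtain ⟨n, hn, x, hx, hx'⟩ := hP
    exact ⟨_, x, hx, hx', (EFI A I u).mul' hx h1⟩
  · obtain ⟨y, hy, hyU⟩ := hS.unF j
    refine ⟨y, hy, mon_uniP P Q hQ _ _ ?_⟩
    have := hyU.mul (hS.unS j)
    rw [mul_one, hdeg] at this
    exact this

end Pool.Agent.MP_b525bf_ag_GM
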