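import Pool.Agent.Lib.MP_b525bf_ag_GM.CHR
import Pool.Agent.Lib.MP_b525bf_ag_GM.IDX
import Pool.Agent.Lib.MP_b525bf_ag_GM.SEM
import Pool.Agent.Lib.MP_b525bf_ag_GM.MON
import Pool.Agent.Lib.MP_b525bf_ag_EL.LOCR
import Pool.Agent.Lib.MP_b525bf_ag_E.MAIN

/-!
# Global machine, row INI: the smooth multigraded family of a list of stable ideals
-/

set_option autoImplicit false
set_option linter.unusedVariables false

namespace Pool.Agent.MP_b525bf_ag_GM

open Pool.Agent.LU2 Pool.Agent.MP_b525bf_ag Pool.Agent.MP_b525bf_ag_W Pool.Agent.MP_b525bf_ag_E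
  Pool.Agent.MP_b525bf_ag_EL

variable {k K : Type} [Field k] [Field K] [Algebra k K] {G : Subgroup (K ≃ₐ[k] K)}
  {A : Subalgebra k K}

private theorem ini_memR {N m : ℕ} {I : Fin N → Submodule A K} {u : Fin m → Fin N → ℕ}
    (i : Fin m) : (1 : K) ∈ (EFI A I u).s (dR N i) :=
  Algebra.subset_adjoin (Or.inr ⟨i, rfl⟩)

private theorem ini_neg {N m : ℕ} (θ : Fin m → ℕ) :
    -(amp N θ) = ∑ i : Fin m, θ i • dR N i := by
  refine Prod.ext ?_ ?_
  · rw [Prod.fst_sum]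
    simp [dR, amp]
  · rw [Prod.snd_sum]
    funext i
    rw [Finset.sum_apply]
    simp [dR, amp, Pi.single_apply]

theorem exists_stkI (h : Hyp G A) {N : ℕ} {I : Fin N → Submodule A K} (hI : IdList G A I)
    {D : Set (Fin N → ℤ)} (hD : D.Finite)
    (had : ∀ W : ValuationSubring K, Inv G A W →
      ∃ (n : ℕ) (x : Fin n → K) (B : Subalgebra k K) (y : Fin N → K), AdaptI A W B x I y D) :
    ∃ (m : ℕ) (M : Fam k K (Ix N m)) (a : Ix N m) (e : Fin m → Ix N m), Stk M a ∧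
      M.s 0 = Subalgebra.toSubmodule A ∧ FStab G M ∧
      LogI M a e (Set.range fun j => (I j : Set K)) := by
  classical
  obtain ⟨m', u, θ, hC⟩ := exists_comb D hD
  -- the charts at the stable semistable primes
  have hchart : ∀ (Q : Ideal (EFI A I u).alg) [Q.IsPrime], SemiS (EFI A I u) (amp N θ) Q →
      QStab G (EFI A I u) Q →
      ∃ C : Fam k K (Ix N m'), (∀ d, (EFI A I u).s d ≤ C.s d) ∧
        (∀ d, C.s d ≤ (atP (EFI A I u) Q).s d) ∧ C.alg.FG ∧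
        LSm C (fun i : Fin m' => dR N i) (fun _ => (1 : K)) := by
    intro Q _ hQ hst
    have hQ' := semiDI hC Q hQ
    obtain ⟨W, hWi, hW⟩ := exists_dom h (zeroSub (atP (EFI A I u) Q)) (by
      intro a ha
      exact le_atP _ _ _ (by rw [EFI_zero hI]; exact ha))
      (zeroSub_stab (EFI_stab h hI) Q hst) (isLocalRing_zeroSub Q)
    obtain ⟨n, x, B, y, ha⟩ := had W hWi
    exact exists_chartI hQ' hW ha
  have hloc : ∀ (Q : Ideal (EFI A I u).alg) [Q.IsPrime], SemiS (EFI A I u) (amp N θ) Q →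
      ∃ (c : Ix N m') (y : K) (hy : y ∈ (EFI A I u).s c), (EFI A I u).el hy ∉ Q ∧
        LSm ((EFI A I u).loc hy) (fun i : Fin m' => dR N i) (fun _ => (1 : K)) := by
    intro Q _ hQ
    refine lsm_of_stab h.idx (EFI_fg h hI) (EFI_stab h hI) ?_ Q hQ
    intro Q' _ hQ' hst
    obtain ⟨C, h1, h2, h3, h4⟩ := hchart Q' hQ' hst
    exact exists_lsm_loc Q' C h1 h2 h3 h4
  refine ⟨m', EFI A I u, amp N θ, fun i => dR N i, ?_, EFI_zero hI, EFI_stab h hI, ?_⟩
  · refine ⟨EFI_fg h hI, ?_, ?_, EFI_neg hC, ⟨1, one_pos, ?_⟩, fun d => ⟨0, ?_, ?_⟩⟩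
    · refine smooth_of_stab h.idx (EFI_fg h hI) (EFI_stab h hI) ?_
      intro Q _ hQ hst
      obtain ⟨C, h1, h2, h3, h4⟩ := hchart Q hQ hst
      exact exists_smooth_loc Q C h1 h2 h3 h4.smooth
    · obtain ⟨w, hw, hidx⟩ := EFI_idx (A := A) (I := I) (u := u) (D := D)
      exact ⟨w, hw, fun Q _ hQ => hidx Q (semiDI hC Q hQ)⟩
    · exact EFI_ne hC hI _
    · exact EFI_ne hC hI _
    · exact EFI_ne hC hI _
  · refine ⟨fun i => ini_memR i, ?_, ⟨θ, ini_neg θ⟩, ?_⟩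
    · intro P hP
      obtain ⟨Q, hQ, hQP⟩ := P.exists_ideal
      have hQs : SemiS (EFI A I u) (amp N θ) Q := by
        obtain ⟨n, hn, y, hy, hy'⟩ := hP
        exact ⟨n, hn, y, hy, fun h' => hy' ((hQP _ y hy).1 h')⟩
      obtain ⟨c, y, hy, hyQ, hL⟩ := hloc Q hQs
      exact ⟨c, y, hy, fun h' => hyQ ((hQP _ y hy).2 h'), hL⟩
    · rintro _ ⟨j, rfl⟩
      exact monAt_EFI hC j

end Pool.Agent.MP_b525bf_ag_GM
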